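import Pool.Agent.H30.BV.Targets

/-!
CL: residue classes by characters.
-/

set_option autoImplicit false

open Finset Real ArithmeticFunction

namespace Pool.Agent.H56.BV

open Pool.Agent.H30.BV

lemma cl_cv_one (c : ℕ) (hc : c = 1) (χ : DirichletCharacter ℂ c) (n : ℕ) : cv χ n = 1 := by
  subst hc
  rw [cv, Subsingleton.elim ((n : ℕ) : ZMod 1) 1, map_one]

lemma cl_identity (d : ℕ) [NeZero d] {a : ZMod d} (ha : IsUnit a) (X : ℝ) :
    (d.totient : ℂ) *
      ((∑ n ∈ (Icc 1 (NX X)).filter (fun n : ℕ => (n : ZMod d) = a), wx X n : ℝ) : ℂ) =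
      ∑ χ : DirichletCharacter ℂ d, χ a⁻¹ * TX X (cv χ) := by
  have h1 : ∀ χ : DirichletCharacter ℂ d, χ a⁻¹ * TX X (cv χ) =
      ∑ n ∈ Icc 1 (NX X), (wx X n : ℂ) * (χ a⁻¹ * χ (n : ZMod d)) := by
    intro χ
    rw [TX, Finset.mul_sum]
    refine Finset.sum_congr rfl fun n _ => ?_
    rw [cv]
    ring
  rw [Finset.sum_congr rfl fun χ _ => h1 χ, Finset.sum_comm]
  have h2 : ∀ n ∈ Icc 1 (NX X), ∑ χ : DirichletCharacter ℂ d,
      (wx X n : ℂ) * (χ a⁻¹ * χ (n : ZMod d)) =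
      if ((n : ℕ) : ZMod d) = a then (d.totient : ℂ) * (wx X n : ℂ) else 0 := by
    intro n _
    rw [← Finset.mul_sum, DirichletCharacter.sum_char_inv_mul_char_eq ℂ ha]
    by_cases h : ((n : ℕ) : ZMod d) = a
    · rw [if_pos h.symm, if_pos h]
      ring
    · rw [if_neg (fun h' => h h'.symm), if_neg h, mul_zero]
  rw [Finset.sum_congr rfl h2, ← Finset.sum_filter, ← Finset.mul_sum]
  push_cast
  rfl

theorem cl (hPM : T_PM) : T_CL := by
  classical
  intro X d a hX hd1 hdX ha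
  have : NeZero d := ⟨by omega⟩
  have hφ : (0 : ℝ) < d.totient := by exact_mod_cast Nat.totient_pos.2 hd1
  set S : ℝ := ∑ n ∈ (Icc 1 (NX X)).filter (fun n : ℕ => (n : ZMod d) = a), wx X n with hS
  have hid := cl_identity d ha X
  rw [← hS] at hid
  -- the principal character
  have h1 : TX X (cv (1 : DirichletCharacter ℂ d).primitiveCharacter) = (WX X : ℂ) := by
    rw [TX, WX]
    push_cast
    refine Finset.sum_congr rfl fun n _ => ?_
    rw [cl_cv_one _ (DirichletCharacter.conductor_one) _ n, mul_one]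
  have h2 := hPM X d 1 hX hd1 hdX
  rw [h1] at h2
  -- the others
  have h3 : SC X d = ∑ χ ∈ univ.erase (1 : DirichletCharacter ℂ d), ‖TX X (cv χ)‖ := by
    rw [SC, finsum_eq_sum_of_fintype,
      ← Finset.add_sum_erase _ _ (Finset.mem_univ (1 : DirichletCharacter ℂ d)), if_pos rfl,
      zero_add]
    refine Finset.sum_congr rfl fun χ hχ => ?_
    rw [if_neg (Finset.ne_of_mem_erase hχ)]
  have h4 : ‖∑ χ ∈ univ.erase (1 : DirichletCharacter ℂ d), χ a⁻¹ * TX X (cv χ)‖ ≤ SC X d := by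
    rw [h3]
    refine (norm_sum_le _ _).trans (Finset.sum_le_sum fun χ _ => ?_)
    rw [norm_mul]
    exact mul_le_of_le_one_left (norm_nonneg _) (DirichletCharacter.norm_le_one χ _)
  have h5 : (1 : DirichletCharacter ℂ d) a⁻¹ = 1 := by
    refine MulChar.one_apply ?_
    obtain ⟨u, rfl⟩ := ha
    exact ⟨u⁻¹, by rw [ZMod.inv_coe_unit]⟩
  have h6 : (d.totient : ℂ) * (S : ℂ) - (WX X : ℂ) =
      (TX X (cv (1 : DirichletCharacter ℂ d)) - (WX X : ℂ)) +
        ∑ χ ∈ univ.erase (1 : DirichletCharacter ℂ d), χ a⁻¹ * TX X (cv χ) := by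
    rw [hid, ← Finset.add_sum_erase _ _ (Finset.mem_univ (1 : DirichletCharacter ℂ d)), h5,
      one_mul]
    ring
  have h7 : ‖(d.totient : ℂ) * (S : ℂ) - (WX X : ℂ)‖ ≤ SC X d + 8 * Real.log X ^ 2 := by
    rw [h6]
    refine (norm_add_le _ _).trans ?_
    linarith
  have h8 : (d.totient : ℂ) * (S : ℂ) - (WX X : ℂ) = (((d.totient : ℝ) * S - WX X : ℝ) : ℂ) := by
    push_cast
    ring
  rw [h8, Complex.norm_real, Real.norm_eq_abs] at h7
  have h9 : S - WX X / d.totient = ((d.totient : ℝ) * S - WX X) / d.totient := by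
    field_simp
  rw [h9, abs_div, abs_of_pos hφ]
  gcongr

end Pool.Agent.H56.BV
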