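import Pool.Agent.H30.BV.Targets

/-!
YV: truncated products, from truncated inclusion-exclusion.
-/

set_option autoImplicit false

open Finset Real

namespace Pool.Agent.H56.BV

open Pool.Agent.H30.BV

/-- the weight of a subset -/
noncomputable def yvwt (g : ℕ → ℝ) (P T : Finset ℕ) : ℝ :=
  (∏ p ∈ T, g p) * ∏ p ∈ P \ T, (1 - g p)

lemma yv_key (g : ℕ → ℝ) (P : Finset ℕ) : ∀ F : Finset ℕ → ℝ,
    ∑ s ∈ P.powerset, F s * ∏ p ∈ s, g p =
      ∑ T ∈ P.powerset, yvwt g P T * ∑ s ∈ T.powerset, F s := by
  induction P using Finset.induction_on with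
  | empty =>
    intro F
    simp [yvwt]
  | insert a P ha ih =>
    intro F
    rw [Finset.sum_powerset_insert ha, Finset.sum_powerset_insert ha]
    have h1 : ∑ s ∈ P.powerset, F (insert a s) * ∏ p ∈ insert a s, g p =
        g a * ∑ s ∈ P.powerset, F (insert a s) * ∏ p ∈ s, g p := by
      rw [Finset.mul_sum]
      refine Finset.sum_congr rfl fun s hs => ?_
      have has : a ∉ s := fun h => ha (Finset.mem_powerset.1 hs h)
      rw [Finset.prod_insert has]
      ring
    have h2 : ∑ T ∈ P.powerset, yvwt g (insert a P) T * ∑ s ∈ T.powerset, F s =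
        (1 - g a) * ∑ T ∈ P.powerset, yvwt g P T * ∑ s ∈ T.powerset, F s := by
      rw [Finset.mul_sum]
      refine Finset.sum_congr rfl fun T hT => ?_
      have haT : a ∉ T := fun h => ha (Finset.mem_powerset.1 hT h)
      have h3 : insert a P \ T = insert a (P \ T) := Finset.insert_sdiff_of_notMem _ haT
      have h4 : a ∉ P \ T := fun h => ha (Finset.mem_sdiff.1 h).1
      rw [yvwt, yvwt, h3, Finset.prod_insert h4]
      ring
    have h5 : ∑ T ∈ P.powerset, yvwt g (insert a P) (insert a T) *
          ∑ s ∈ (insert a T).powerset, F s =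
        g a * ∑ T ∈ P.powerset, yvwt g P T * ∑ s ∈ T.powerset, F s +
        g a * ∑ T ∈ P.powerset, yvwt g P T * ∑ s ∈ T.powerset, F (insert a s) := by
      rw [Finset.mul_sum, Finset.mul_sum, ← Finset.sum_add_distrib]
      refine Finset.sum_congr rfl fun T hT => ?_
      have haT : a ∉ T := fun h => ha (Finset.mem_powerset.1 hT h)
      have h3 : insert a P \ insert a T = P \ T := by
        ext x
        simp only [Finset.mem_sdiff, Finset.mem_insert, not_or]
        constructor
        · rintro ⟨h | h, h'⟩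
          · exact absurd h h'.1
          · exact ⟨h, h'.2⟩
        · rintro ⟨h, h'⟩
          exact ⟨Or.inr h, fun h'' => ha (h'' ▸ h), h'⟩
      rw [yvwt, yvwt, h3, Finset.prod_insert haT, Finset.sum_powerset_insert haT]
      ring
    rw [h1, h2, h5, ih F, ih fun s => F (insert a s)]
    ring

theorem yv (hPW : T_PW) : T_YV := by
  intro P g b hg
  have hwt : ∀ T ∈ P.powerset, 0 ≤ yvwt g P T := by
    intro T hT
    have hTP := Finset.mem_powerset.1 hT
    refine mul_nonneg (Finset.prod_nonneg fun p hp => (hg p (hTP hp)).1)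
      (Finset.prod_nonneg fun p hp => ?_)
    linarith [(hg p (Finset.mem_sdiff.1 hp).1).2]
  have hE : ∑ T ∈ P.powerset, yvwt g P T * (if T = ∅ then (1 : ℝ) else 0) =
      ∏ p ∈ P, (1 - g p) := by
    simp only [mul_ite, mul_one, mul_zero]
    rw [Finset.sum_ite_eq', if_pos (Finset.empty_mem_powerset P), yvwt, Finset.prod_empty,
      one_mul, Finset.sdiff_empty]
  refine ⟨Finset.prod_pos fun p hp => by linarith [(hg p hp).2], ?_, ?_⟩
  · rw [yv_key g P fun s => if s.card ≤ 2 * b then (-1 : ℝ) ^ s.card else 0, ← hE]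
    exact Finset.sum_le_sum fun T hT => mul_le_mul_of_nonneg_left (hPW T b).1 (hwt T hT)
  · rw [yv_key g P fun s => if s.card ≤ 2 * b then (-1 : ℝ) ^ s.card else 0,
      yv_key g P fun s => if s.card = 2 * b + 1 then (1 : ℝ) else 0, ← hE,
      ← Finset.sum_add_distrib]
    refine Finset.sum_le_sum fun T hT => ?_
    rw [← mul_add]
    exact mul_le_mul_of_nonneg_left (hPW T b).2 (hwt T hT)

end Pool.Agent.H56.BV
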