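import Pool.Agent.H30.BV.Targets

/-!
HB: the size of `2 ^ ω / φ` on odd squarefree numbers.
-/

set_option autoImplicit false

open Finset Real

namespace Pool.Agent.H56.BV

open Pool.Agent.H30.BV

lemma hb_factor (p : ℕ) (hp : p.Prime) (h2 : p ≠ 2) :
    2 * √(p : ℝ) / ((p : ℝ) - 1) ≤
      (if p = 3 then √3 else 1) * (if p = 5 then √5 / 2 else 1) := by
  by_cases h3 : p = 3
  · subst h3
    simp only [if_true, if_neg (by norm_num : ¬ (3 : ℕ) = 5)]
    push_cast
    have : (0 : ℝ) ≤ √3 := Real.sqrt_nonneg _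
    norm_num
  · by_cases h5 : p = 5
    · subst h5
      simp only [if_true, if_neg (by norm_num : ¬ (5 : ℕ) = 3)]
      push_cast
      have : (0 : ℝ) ≤ √5 := Real.sqrt_nonneg _
      norm_num
      linarith
    · rw [if_neg h3, if_neg h5, one_mul]
      have h4 : p ≠ 4 := by
        rintro rfl
        exact absurd hp (by norm_num)
      have h6 : 6 ≤ p := by
        have := hp.two_le
        omega
      have h7 : (6 : ℝ) ≤ p := by exact_mod_cast h6
      rw [div_le_one (by linarith)]
      have h8 : √(p : ℝ) ≤ ((p : ℝ) - 1) / 2 := by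
        rw [Real.sqrt_le_left (by linarith)]
        nlinarith
      linarith

theorem hb : T_HB := by
  intro d hsq hodd
  have hd0 : d ≠ 0 := hsq.ne_zero
  have hprod : ∏ p ∈ d.primeFactors, p = d := Nat.prod_primeFactors_of_squarefree hsq
  have htot : (d.totient : ℝ) = ∏ p ∈ d.primeFactors, ((p : ℝ) - 1) := by
    have h1 := Nat.totient_mul_prod_primeFactors d
    rw [hprod] at h1
    have h2 : d.totient = ∏ p ∈ d.primeFactors, (p - 1) := by
      have h3 : d * d.totient = d * ∏ p ∈ d.primeFactors, (p - 1) := by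
        rw [mul_comm d d.totient]
        exact h1
      exact Nat.eq_of_mul_eq_mul_left (Nat.pos_of_ne_zero hd0) h3
    rw [h2, Nat.cast_prod]
    refine Finset.prod_congr rfl fun p hp => ?_
    rw [Nat.cast_sub (Nat.prime_of_mem_primeFactors hp).one_le, Nat.cast_one]
  have hsqrt : √(d : ℝ) = ∏ p ∈ d.primeFactors, √(p : ℝ) := by
    conv_lhs => rw [← hprod]
    rw [Nat.cast_prod, Real.sqrt_prod]
    intro p _
    positivity
  have hdpos : (0 : ℝ) < √(d : ℝ) := Real.sqrt_pos.2 (by exact_mod_cast Nat.pos_of_ne_zero hd0)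
  rw [le_div_iff₀ hdpos, hd, htot, hsqrt, ← Finset.prod_const, div_mul_eq_mul_div,
    ← Finset.prod_mul_distrib, ← Finset.prod_div_distrib]
  have h1 : ∏ p ∈ d.primeFactors, (2 * √(p : ℝ) / ((p : ℝ) - 1)) ≤
      ∏ p ∈ d.primeFactors,
        ((if p = 3 then √3 else 1) * (if p = 5 then √5 / 2 else 1) : ℝ) := by
    refine Finset.prod_le_prod (fun p hp => ?_) fun p hp => ?_
    · have hp1 : (1 : ℝ) ≤ p := by
        exact_mod_cast (Nat.prime_of_mem_primeFactors hp).one_le
      exact div_nonneg (by positivity) (by linarith)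
    · refine hb_factor p (Nat.prime_of_mem_primeFactors hp) ?_
      rintro rfl
      exact (Nat.not_even_iff_odd.2 hodd) (even_iff_two_dvd.2 (Nat.dvd_of_mem_primeFactors hp))
  refine h1.trans ?_
  rw [Finset.prod_mul_distrib, Finset.prod_ite_eq', Finset.prod_ite_eq']
  have ha : √3 * √3 = (3 : ℝ) := Real.mul_self_sqrt (by norm_num)
  have hb : √5 * √5 = (5 : ℝ) := Real.mul_self_sqrt (by norm_num)
  have ha0 : (0 : ℝ) ≤ √3 := Real.sqrt_nonneg _
  have hb0 : (0 : ℝ) ≤ √5 := Real.sqrt_nonneg _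
  have ha1 : √3 ≤ (1.74 : ℝ) := by
    rw [Real.sqrt_le_left (by norm_num)]
    norm_num
  have hb1 : √5 ≤ (2.24 : ℝ) := by
    rw [Real.sqrt_le_left (by norm_num)]
    norm_num
  split_ifs
  · nlinarith
  · linarith
  · linarith
  · norm_num

end Pool.Agent.H56.BV
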