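import Pool.Agent.H8.BV.Targets

/-!
# Membership of a form which vanishes on the zeros of a radical ideal (row NSX)
-/

set_option autoImplicit false

open MvPolynomial
open Pool.Agent.H12.ZD (pmap)
open Pool.Agent.H18.HIT Pool.Agent.H18.HX Pool.Agent.H18.VZ
open Pool.Agent.H8.BIG (KF line)
open Pool.Agent.H8.BV

namespace Pool.Agent.H56.BV

variable {σ k : Type} [Field k]

theorem hc_mul (q G : MvPolynomial σ k) {m : ℕ} (hG : G.IsHomogeneous m) (r : ℕ) :
    homogeneousComponent (r + m) (q * G) = homogeneousComponent r q * G := by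
  have e : q * G = ∑ i ∈ Finset.range (q.totalDegree + 1), homogeneousComponent i q * G := by
    rw [← Finset.sum_mul, sum_homogeneousComponent]
  rw [e, map_sum]
  by_cases hr : r ∈ Finset.range (q.totalDegree + 1)
  · rw [Finset.sum_eq_single_of_mem r hr, homogeneousComponent_of_mem (n := r + m)
      ((homogeneousComponent_isHomogeneous r q).mul hG), if_pos rfl]
    · intro i _ hi
      rw [homogeneousComponent_of_mem (n := i + m)
        ((homogeneousComponent_isHomogeneous i q).mul hG), if_neg (by omega)]
  · rw [Finset.sum_eq_zero, homogeneousComponent_eq_zero, zero_mul]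
    · simpa using hr
    · intro i hi
      rw [homogeneousComponent_of_mem (n := i + m)
        ((homogeneousComponent_isHomogeneous i q).mul hG), if_neg]
      rintro h
      exact hr ((by omega : r = i) ▸ hi)

theorem hc_mul' (q G : MvPolynomial σ k) {m : ℕ} (hG : G.IsHomogeneous m) (d : ℕ) (hd : d < m) :
    homogeneousComponent d (q * G) = 0 := by
  have e : q * G = ∑ i ∈ Finset.range (q.totalDegree + 1), homogeneousComponent i q * G := by
    rw [← Finset.sum_mul, sum_homogeneousComponent]
  rw [e, map_sum]
  refine Finset.sum_eq_zero fun i hi => ?_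
  rw [homogeneousComponent_of_mem (n := i + m)
    ((homogeneousComponent_isHomogeneous i q).mul hG), if_neg (by omega)]

theorem hc_dvd (q P : MvPolynomial σ k) {m : ℕ} (hP : P.IsHomogeneous m) (d : ℕ) :
    P ∣ homogeneousComponent d (q * P) := by
  by_cases hd : d < m
  · rw [hc_mul' q P hP d hd]; exact dvd_zero _
  · obtain ⟨r, rfl⟩ : ∃ r, d = r + m := ⟨d - m, by omega⟩
    rw [hc_mul q P hP r]; exact Dvd.intro_left _ rfl

/-- The row NSX. -/
theorem pf_NSX : T_NSX := by
  intro N r a s k _ _ P c h hyp hrad hc hh hz
  have hup : (up h).IsHomogeneous s := hh.rename_isHomogeneous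
  have hmem : c ∈ Ideal.span {P, up h} := by
    have h1 : c ∈ vanishingIdeal k (zeroLocus k (Ideal.span {P, up h})) := by
      rw [mem_vanishingIdeal_iff]
      intro x hx
      rw [mem_zeroLocus_iff] at hx
      have hP := hx P (Ideal.subset_span (by simp))
      have hu := hx (up h) (Ideal.subset_span (by simp))
      rw [aeval_eq_eval] at hP hu ⊢
      exact hz x hP hu
    rw [vanishingIdeal_zeroLocus_eq_radical, hrad.radical] at h1
    exact h1
  obtain ⟨A, B, hAB⟩ := Ideal.mem_span_pair.1 hmem
  have hcomp : homogeneousComponent a c = c := by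
    rw [homogeneousComponent_of_mem hc, if_pos rfl]
  have hsum : c = homogeneousComponent a (A * P) + homogeneousComponent a (B * up h) := by
    rw [← map_add, hAB, hcomp]
  by_cases hs : a < s
  · refine ⟨0, by simp, ?_⟩
    rw [mul_zero, sub_zero, hsum, hc_mul' B (up h) hup a hs, add_zero]
    exact hc_dvd A P hyp.hom a
  · obtain ⟨t, rfl⟩ : ∃ t, a = t + s := ⟨a - s, by omega⟩
    refine ⟨homogeneousComponent t B, ?_, ?_⟩
    · exact ((homogeneousComponent_isHomogeneous t B).totalDegree_le).trans (by omega)
    · have : c - up h * homogeneousComponent t B = homogeneousComponent (t + s) (A * P) := by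
        rw [hc_mul B (up h) hup t] at hsum
        linear_combination hsum
      rw [this]
      exact hc_dvd A P hyp.hom (t + s)

end Pool.Agent.H56.BV
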